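import Mathlib
import Pool.Agent.H1.Mult

set_option autoImplicit false

namespace Pool.Agent.Results.MP_675def_co.Superpoly

open Filter Pool.Agent.H1.Mult

theorem result :
    ∀ K : ℕ, ∀ᶠ n : ℕ in atTop, n ^ K ≤ C n ∧ n ^ K ≤ D n ∧ n ^ K ≤ mu n := by
  intro K
  filter_upwards [D_superpoly K, mu_superpoly K] with n h1 h2
  exact ⟨h1.trans (D_le_C n), h1, h2⟩

end Pool.Agent.Results.MP_675def_co.Superpoly
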